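import Pool.Agent.T6.H52.DP.Fin

/-!
# Density partitions: two far vertices of a part, and graphs of maximum degree at most 6

In an optimal partition with the largest possible number of parts, two vertices of a part `S` at
distance at least 3 in `G[S]` cannot both have degree at most `|S|/2 + 1` in `G[S]`.  Every finite
graph of maximum degree at most 6 has an optimal partition which is a 2-club clustering.
-/

set_option autoImplicit false

namespace Pool.Agent.Results.MP_9c5a5c_co.DegreeAtMostSix

open Finset R100DC H52.DP

theorem result (V : Type) [Fintype V] [DecidableEq V] (G : SimpleGraph V) :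
    -- (1) two far vertices of a part
    (∀ P : Finpartition (univ : Finset V), Optimal G P →
      (∀ P' : Finpartition (univ : Finset V), Optimal G P' → P'.parts.card ≤ P.parts.card) →
      ∀ S ∈ P.parts, ∀ u ∈ S, ∀ v ∈ S, u ≠ v → ¬ G.Adj u v →
        (∀ w ∈ S, ¬ (G.Adj u w ∧ G.Adj w v)) →
        S.card + 2 < 2 * max (degIn G S u) (degIn G S v)) ∧
    -- (2) maximum degree at most 6
    ((∀ x, ({w | G.Adj x w} : Set V).ncard ≤ 6) →
      (∃ P : Finpartition (univ : Finset V), Optimal G P ∧ ∀ S ∈ P.parts, TwoClub G S) ∧
      ∀ P : Finpartition (univ : Finset V), Optimal G P →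
        (∀ P' : Finpartition (univ : Finset V), Optimal G P' → P'.parts.card ≤ P.parts.card) →
        ∀ S ∈ P.parts, TwoClub G S) := by
  refine ⟨fun P hP hmax S hS u hu v hv huv hna hno => big G P hP hmax S hS u hu v hv huv hna hno,
    fun hG => ⟨?_, fun P hP hmax S hS => club G hG P hP hmax S hS⟩⟩
  obtain ⟨P, hP, hmax⟩ := exists_best G
  exact ⟨P, hP, fun S hS => club G hG P hP hmax S hS⟩

end Pool.Agent.Results.MP_9c5a5c_co.DegreeAtMostSix
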