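import Pool.Agent.T6.H59.CL.Ball

/-!
# Optimal density partitions into parts of diameter at most three

Every finite graph has a density-maximising partition all of whose parts are connected of diameter
at most 3 and in which every ball of radius 2 of a part contains more than half of the part; every
density-maximising partition with the largest possible number of parts is such.
-/

set_option autoImplicit false

namespace Pool.Agent.Results.MP_9c5a5c_co.DiameterThree

open R100DC Finset H59.CL

/-- Every finite graph has an optimal partition such that every part `S` induces a connected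
subgraph of diameter at most 3 in which every ball of radius 2 has more than `|S| / 2` vertices,
and every optimal partition with the largest number of parts is such. -/
theorem result (V : Type) [Fintype V] [DecidableEq V] (G : SimpleGraph V) :
    (∃ P : Finpartition (univ : Finset V), Optimal G P ∧
      ∀ S ∈ P.parts, (G.induce (S : Set V)).Connected ∧
        (∀ x y : (S : Set V), (G.induce (S : Set V)).dist x y ≤ 3) ∧
        ∀ x : (S : Set V),
          S.card < 2 * {y : (S : Set V) | (G.induce (S : Set V)).dist x y ≤ 2}.ncard) ∧
    ∀ P : Finpartition (univ : Finset V), Optimal G P →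
      (∀ P' : Finpartition (univ : Finset V), Optimal G P' → P'.parts.card ≤ P.parts.card) →
      ∀ S ∈ P.parts, (G.induce (S : Set V)).Connected ∧
        (∀ x y : (S : Set V), (G.induce (S : Set V)).dist x y ≤ 3) ∧
        ∀ x : (S : Set V),
          S.card < 2 * {y : (S : Set V) | (G.induce (S : Set V)).dist x y ≤ 2}.ncard := by
  have key : ∀ P : Finpartition (univ : Finset V), Optimal G P →
      (∀ P' : Finpartition (univ : Finset V), Optimal G P' → P'.parts.card ≤ P.parts.card) →
      ∀ S ∈ P.parts, (G.induce (S : Set V)).Connected ∧
        (∀ x y : (S : Set V), (G.induce (S : Set V)).dist x y ≤ 3) ∧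
        ∀ x : (S : Set V),
          S.card < 2 * {y : (S : Set V) | (G.induce (S : Set V)).dist x y ≤ 2}.ncard := by
    intro P hP hmax S hS
    have hT := tight_of_max G P hP hmax hS
    exact ⟨conn G (P.nonempty_of_mem_parts hS) hT, dist_le_three G hT, ball G hT⟩
  obtain ⟨P, hP, hmax⟩ := exists_max_opt G
  exact ⟨⟨P, hP, key P hP hmax⟩, key⟩

end Pool.Agent.Results.MP_9c5a5c_co.DiameterThree
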