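import Pool.Agent.H57DC.Fin

/-!
# Optimal density partitions into 2-clubs when every `K_4` is dominating

Let `G` be a finite graph in which every vertex outside a `K_4` has a neighbour in it (that is,
`G` has no induced `K_4 ∪ K_1`).  Then `G` has a density-maximising partition all of whose parts
have diameter at most 2.
-/

set_option autoImplicit false

namespace Pool.Agent.Results.MP_9c5a5c_co.DominatingKFour

open R100DC Finset

/-- If every vertex outside a `K_4` has a neighbour in it, then some density-maximising partition
is a 2-club clustering. -/
theorem result (V : Type) [Fintype V] [DecidableEq V] (G : SimpleGraph V)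
    (hG : ∀ K : Finset V, G.IsNClique 4 K → ∀ y, y ∉ K → ∃ x ∈ K, G.Adj y x) :
    ∃ P : Finpartition (univ : Finset V), Optimal G P ∧ ∀ S ∈ P.parts, TwoClub G S :=
  (H57DC.final G (H57DC.dom_of G hG)).1

end Pool.Agent.Results.MP_9c5a5c_co.DominatingKFour
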